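import Pool.Agent.TH803.CL.NearS
import Pool.Agent.TH803.UC.Sets
import Pool.Agent.H295R2.SI.Fin

/-!
# Isolated simple zeros of Hardy's function in short intervals

Unconditionally, for fixed `0 < h ≤ 1`, `0 < δ ≤ 1/10`, all large `T` and `T ^ h ≤ H ≤ T`, at least
`(2 - c(h) - 74 δ² - ε) N(T, T + H)` of the zeros of `Z` in `(T, T + H]` are simple and isolated: no
other zero of zeta in the critical strip, on or off the critical line, has distance less than
`δ / log T` from them. Here `c(h) = h/2 + cot(h/√2)/√2`, `c(1) ≤ 1.3275`. There are absolute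
constants `κ > 0` and `h₀ < 1` such that the proportion is at least `2 - c(1) + κ - 74 δ²`, beyond
the Montgomery-Taylor constant, as soon as `T ^ h₀ ≤ H ≤ T` and `δ ≤ 1/30`.
-/

open Filter Topology Complex

namespace Pool.Agent.Results.MP_6bc78b_nt.IsolatedSimpleZeros

/-- the phase `exp (i ϑ(t))`, with `ϑ(t) = arg Γ(1/4 + i t / 2) - (t / 2) log π` -/
noncomputable def phase (t : ℝ) : ℂ :=
  Gamma (1 / 4 + I * t / 2) / ‖Gamma (1 / 4 + I * t / 2)‖ * cexp (-(I * (t / 2) * Real.log Real.pi))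

/-- Hardy's function `Z(t) = exp (i ϑ(t)) ζ(1/2 + i t)` -/
noncomputable def Z (t : ℝ) : ℂ := phase t * riemannZeta (1 / 2 + I * t)

/-- the simple real zeros `t` of `Z` in `(T₁, T₂]` for which `1/2 + it` has distance at least `d`
from all other zeros of zeta in the open critical strip -/
def isolated (T₁ T₂ d : ℝ) : Set ℝ :=
  {t : ℝ | T₁ < t ∧ t ≤ T₂ ∧ Z t = 0 ∧ deriv Z t ≠ 0 ∧
    ∀ s : ℂ, riemannZeta s = 0 → 0 < s.re → s.re < 1 → s ≠ 1 / 2 + I * t →
      d ≤ ‖s - (1 / 2 + I * t)‖}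

/-- the nontrivial zeros of zeta with ordinate in `(T₁, T₂]` -/
def zeros (T₁ T₂ : ℝ) : Set ℂ :=
  {s : ℂ | riemannZeta s = 0 ∧ 0 < s.re ∧ s.re < 1 ∧ T₁ < s.im ∧ s.im ≤ T₂}

/-- the number of nontrivial zeros with ordinate in `(T₁, T₂]`, counted with multiplicity -/
noncomputable def N (T₁ T₂ : ℝ) : ℕ := ∑ᶠ s ∈ zeros T₁ T₂, analyticOrderNatAt riemannZeta s

/-- the constant `c(h) = h/2 + cot(h/√2)/√2` -/
noncomputable def c (h : ℝ) : ℝ := h / 2 + Real.cot (h / Real.sqrt 2) / Real.sqrt 2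

lemma gamma_ne (t : ℝ) : Gamma (1 / 4 + I * t / 2) ≠ 0 := by
  apply Gamma_ne_zero_of_re_pos
  simp

lemma gamma_cont : Continuous fun t : ℝ => Gamma (1 / 4 + I * t / 2) := by
  rw [continuous_iff_continuousAt]
  intro t
  have h1 : ContinuousAt Gamma (1 / 4 + I * t / 2) := by
    refine (differentiableAt_Gamma _ fun m hm => ?_).continuousAt
    have := congrArg Complex.re hm
    simp at this
    have hm0 : (0 : ℝ) ≤ m := Nat.cast_nonneg m
    linarith
  exact ContinuousAt.comp (f := fun t : ℝ => (1 / 4 + I * t / 2 : ℂ)) h1 (by fun_prop)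

lemma phase_cont : Continuous phase := by
  unfold phase
  refine Continuous.mul (gamma_cont.div ?_ ?_) (by fun_prop)
  · exact Complex.continuous_ofReal.comp gamma_cont.norm
  · intro t
    rw [Complex.ofReal_ne_zero]
    exact norm_ne_zero_iff.mpr (gamma_ne t)

lemma phase_ne (t : ℝ) : phase t ≠ 0 := by
  unfold phase
  refine mul_ne_zero (div_ne_zero (gamma_ne t) ?_) (Complex.exp_ne_zero _)
  rw [Complex.ofReal_ne_zero]
  exact norm_ne_zero_iff.mpr (gamma_ne t)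

lemma Z_zero_iff (t : ℝ) : Z t = 0 ↔ riemannZeta (1 / 2 + I * t) = 0 := by
  unfold Z
  rw [mul_eq_zero]
  exact ⟨fun h => h.resolve_left (phase_ne t), Or.inr⟩

lemma zeta_diff (t : ℝ) : DifferentiableAt ℂ riemannZeta (1 / 2 + I * t) := by
  refine differentiableAt_riemannZeta fun h => ?_
  have := congrArg Complex.re h
  norm_num at this

/-- the derivative of `Z` at a zero -/
lemma Z_hasDerivAt (t : ℝ) (h : riemannZeta (1 / 2 + I * t) = 0) :
    HasDerivAt Z (phase t * (deriv riemannZeta (1 / 2 + I * t) * I)) t := by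
  have hg : HasDerivAt (fun u : ℝ => riemannZeta (1 / 2 + I * u))
      (deriv riemannZeta (1 / 2 + I * t) * I) t := by
    have h1 : HasDerivAt (fun u : ℝ => (1 / 2 + I * u : ℂ)) I t := by
      have h2 : HasDerivAt (fun u : ℝ => (u : ℂ)) 1 t := Complex.ofRealCLM.hasDerivAt
      simpa using (h2.const_mul I).const_add (1 / 2 : ℂ)
    exact HasDerivAt.comp (h₂ := riemannZeta) t (zeta_diff t).hasDerivAt h1
  rw [hasDerivAt_iff_tendsto_slope] at hg ⊢
  have h3 : Tendsto phase (𝓝[≠] t) (𝓝 (phase t)) :=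
    phase_cont.continuousAt.tendsto.mono_left nhdsWithin_le_nhds
  refine (h3.mul hg).congr fun u => ?_
  have hZ : Z t = 0 := (Z_zero_iff t).mpr h
  rw [slope_def_module, slope_def_module, hZ, h, sub_zero, sub_zero]
  unfold Z
  simp only [Complex.real_smul]
  ring

lemma zeros_eq (T₁ T₂ : ℝ) : zeros T₁ T₂ = H370.zset riemannZeta T₁ T₂ := by
  ext s
  simp only [zeros, H370.zset, Set.mem_ofPred_eq]
  tauto

/-- the sets of zeros that are counted are finite -/
theorem zeros_finite (T₁ T₂ : ℝ) (h : 0 < T₁) : (zeros T₁ T₂).Finite := by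
  rw [zeros_eq]
  exact H370.zset_finite' H370.good_zeta T₁ T₂ h

/-- the sets of isolated simple zeros that are counted are finite -/
theorem isolated_finite (T₁ T₂ d : ℝ) (h : 0 < T₁) : (isolated T₁ T₂ d).Finite := by
  have hinj : Function.Injective fun t : ℝ => (1 / 2 + I * t : ℂ) := by
    intro a b hab
    have := congrArg Complex.im hab
    simpa using this
  refine Set.Finite.of_finite_image ((zeros_finite T₁ T₂ h).subset ?_) hinj.injOn
  rintro s ⟨t, ⟨h1, h2, h3, h4, h5⟩, rfl⟩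
  refine ⟨(Z_zero_iff t).mp h3, ?_, ?_, ?_, ?_⟩ <;> simp <;> first | assumption | norm_num

lemma N_eq (T₁ T₂ : ℝ) : N T₁ T₂ = H370.NN riemannZeta T₁ T₂ := by
  unfold N H370.NN H370.mult
  rw [zeros_eq]

lemma isoA_le {T₁ T₂ d : ℝ} (h : 1 ≤ T₁) :
    (TH803CL.isoA riemannZeta T₁ T₂ d).card ≤ (isolated T₁ T₂ d).ncard := by
  classical
  rw [← Set.ncard_coe_finset]
  refine Set.ncard_le_ncard_of_injOn (fun s => s.im) ?_ ?_ (isolated_finite T₁ T₂ d (by linarith))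
  · intro s hs
    rw [Finset.mem_coe] at hs
    unfold TH803CL.isoA at hs
    rw [Finset.mem_filter] at hs
    obtain ⟨hs1, h6, h7, h8⟩ := hs
    obtain ⟨h1, h2, h3, h4, h5⟩ := (H370.mem_Zf H370.good_zeta h).mp hs1
    have hs : (1 / 2 + I * ((s.im : ℝ) : ℂ) : ℂ) = s := by
      apply Complex.ext
      · simp [h6]
      · simp
    have h0 : riemannZeta (1 / 2 + I * ((s.im : ℝ) : ℂ)) = 0 := by rw [hs]; exact h5
    refine ⟨h3, h4, (Z_zero_iff _).mpr h0, ?_, ?_⟩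
    · rw [(Z_hasDerivAt _ h0).deriv]
      refine mul_ne_zero (phase_ne _) (mul_ne_zero ?_ I_ne_zero)
      rw [hs]
      refine TH803UC.deriv_of_order ?_ h5 h7
      intro h9
      rw [h9] at h6
      norm_num at h6
    · intro s' a1 a2 a3 a4
      rw [hs] at a4 ⊢
      rw [norm_sub_rev]
      exact h8 s' a1 a2 a3 a4
  · intro s hs s' hs' h
    rw [Finset.mem_coe] at hs hs'
    unfold TH803CL.isoA at hs hs'
    rw [Finset.mem_filter] at hs hs'
    exact Complex.ext (hs.2.1.trans hs'.2.1.symm) h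

/-- **isolated simple zeros of Hardy's function in short intervals** -/
theorem result :
    -- all short intervals
    (∀ h δ ε : ℝ, 0 < h → h ≤ 1 → 0 < δ → δ ≤ 1 / 10 → 0 < ε →
      ∃ T₀ : ℝ, ∀ T : ℝ, T₀ ≤ T → ∀ H : ℝ, T ^ h ≤ H → H ≤ T →
        (2 - c h - 74 * δ ^ 2 - ε) * (N T (T + H) : ℝ) ≤
          ((isolated T (T + H) (δ / Real.log T)).ncard : ℝ)) ∧
    -- beyond the Montgomery-Taylor constant
    (∃ κ h₀ : ℝ, 0 < κ ∧ 0 < h₀ ∧ h₀ < 1 ∧ ∀ δ : ℝ, 0 < δ → δ ≤ 1 / 30 →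
      ∃ T₀ : ℝ, ∀ T : ℝ, T₀ ≤ T → ∀ H : ℝ, T ^ h₀ ≤ H → H ≤ T →
        (2 - c 1 + κ - 74 * δ ^ 2) * (N T (T + H) : ℝ) ≤
          ((isolated T (T + H) (δ / Real.log T)).ncard : ℝ)) ∧
    -- the constants
    (∀ h : ℝ, 0 < h → h ≤ 1 → c h ≤ 1 / h + h / 3) ∧ 0.6725 ≤ 2 - c 1 := by
  refine ⟨fun h δ ε h0 h1 hδ0 hδ1 hε => ?_, ?_, H295SI.cc_le, ?_⟩
  · obtain ⟨T0, hT0, hT⟩ := TH803CL.iso_main H370.good_zeta h ε δ h0 h1 hε hδ0 hδ1
    refine ⟨T0, fun T hTT H hH1 hH2 => ?_⟩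
    have hT1 : 1 ≤ T := by linarith [hT0.trans hTT]
    rw [N_eq]
    refine (hT T hTT H hH1 hH2).trans ?_
    exact_mod_cast isoA_le hT1
  · obtain ⟨κ, h0, hκ, hh0, hh1, hmain⟩ := TH803CL.isoS_main
    refine ⟨κ, h0, hκ, hh0, hh1, fun δ hδ0 hδ1 => ?_⟩
    obtain ⟨T0, hT0, hT⟩ := hmain riemannZeta H370.good_zeta δ hδ0 hδ1
    refine ⟨T0, fun T hTT H hH1 hH2 => ?_⟩
    have hT1 : 1 ≤ T := by linarith [hT0.trans hTT]
    rw [N_eq]
    refine (hT T hTT H hH1 hH2).trans ?_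
    exact_mod_cast isoA_le hT1
  · have h : c 1 ≤ 1.3275 := TH803UC.cc_lt
    norm_num at h ⊢
    linarith

end Pool.Agent.Results.MP_6bc78b_nt.IsolatedSimpleZeros
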