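import Pool.Agent.Y745.LD.Final
import Pool.Agent.Y745.UP.All

/-!
# Large deviations of the derivative of Hardy's function at its zeros: the exact exponents

Unconditionally: for `0 ≤ κ ≤ 2` the number of real zeros `t` of `Z` in `(T, 2 T]` with
`|Z'(t)| ≥ (log t) ^ (1 + κ)` is `T (log T) ^ (1 - κ ^ 2 + o(1))`, and for `0 < k < 2` the sum of
`|Z'(t)| ^ (2 k)` over the real zeros in `(T, 2 T]` is `T (log T) ^ ((k + 1) ^ 2 + o(1))`. Moreover
there is a `δ > 0` such that for every real `κ` and every `ε > 0` and all large `T`, at least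
`T (log T) ^ (1 - κ ^ 2 - ε)` real zeros `t` of `Z` with `T < t ≤ 2 T` are simple, have distance at least
`δ / log t` from every other nontrivial zero of zeta, and satisfy
`(log t) ^ (1 + κ - ε) ≤ |Z'(t)| ≤ (log t) ^ (1 + κ + ε)`.
-/

open Filter Topology Complex

namespace Pool.Agent.Results.MP_6bc78b_nt.LargeDeviationExponents

/-- the phase `exp (i ϑ(t))`, with `ϑ(t) = arg Γ(1/4 + i t / 2) - (t / 2) log π` -/
noncomputable def phase (t : ℝ) : ℂ :=
  Gamma (1 / 4 + I * t / 2) / ‖Gamma (1 / 4 + I * t / 2)‖ * cexp (-(I * (t / 2) * Real.log Real.pi))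

/-- Hardy's function `Z(t) = exp (i ϑ(t)) ζ(1/2 + i t)` -/
noncomputable def Z (t : ℝ) : ℂ := phase t * riemannZeta (1 / 2 + I * t)

/-- the real zeros `t` of `Z` in `(T, 2 T]` that are simple, that have distance at least `δ / log t` from all other
nontrivial zeros of zeta (on or off the critical line), and at which `|Z'(t)|` lies between `(log t) ^ (1 + κ - ε)` and
`(log t) ^ (1 + κ + ε)` -/
def largeZeros (κ ε δ T : ℝ) : Set ℝ :=
  {t : ℝ | T < t ∧ t ≤ 2 * T ∧ Z t = 0 ∧ deriv Z t ≠ 0 ∧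
    (∀ s : ℂ, riemannZeta s = 0 → 0 < s.re → s.re < 1 → s ≠ 1 / 2 + I * t →
      δ / Real.log t ≤ ‖s - (1 / 2 + I * t)‖) ∧
    Real.log t ^ (1 + κ - ε) ≤ ‖deriv Z t‖ ∧ ‖deriv Z t‖ ≤ Real.log t ^ (1 + κ + ε)}

/-- the real zeros of `Z` in `(T, 2 T]` -/
def realZeros (T : ℝ) : Set ℝ := {t : ℝ | T < t ∧ t ≤ 2 * T ∧ Z t = 0}

/-- the real zeros `t` of `Z` in `(T, 2 T]` with `|Z'(t)| ≥ (log t) ^ (1 + κ)` -/
def zerosAbove (κ T : ℝ) : Set ℝ := {t : ℝ | t ∈ realZeros T ∧ Real.log t ^ (1 + κ) ≤ ‖deriv Z t‖}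

lemma gamma_ne (t : ℝ) : Gamma (1 / 4 + I * t / 2) ≠ 0 := by
  apply Gamma_ne_zero_of_re_pos
  simp

lemma gamma_cont : Continuous fun t : ℝ => Gamma (1 / 4 + I * t / 2) := by
  rw [continuous_iff_continuousAt]
  intro t
  have h1 : ContinuousAt Gamma (1 / 4 + I * t / 2) := by
    refine (differentiableAt_Gamma _ fun m hm => ?_).continuousAt
    have := congrArg Complex.re hm
    simp at this
    have hm0 : (0 : ℝ) ≤ m := Nat.cast_nonneg m
    linarith
  exact ContinuousAt.comp (f := fun t : ℝ => (1 / 4 + I * t / 2 : ℂ)) h1 (by fun_prop)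

lemma phase_cont : Continuous phase := by
  unfold phase
  refine Continuous.mul (gamma_cont.div ?_ ?_) (by fun_prop)
  · exact Complex.continuous_ofReal.comp gamma_cont.norm
  · intro t
    rw [Complex.ofReal_ne_zero]
    exact norm_ne_zero_iff.mpr (gamma_ne t)

lemma phase_ne (t : ℝ) : phase t ≠ 0 := by
  unfold phase
  refine mul_ne_zero (div_ne_zero (gamma_ne t) ?_) (Complex.exp_ne_zero _)
  rw [Complex.ofReal_ne_zero]
  exact norm_ne_zero_iff.mpr (gamma_ne t)

lemma Z_zero_iff (t : ℝ) : Z t = 0 ↔ riemannZeta (1 / 2 + I * t) = 0 := by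
  unfold Z
  rw [mul_eq_zero]
  exact ⟨fun h => h.resolve_left (phase_ne t), Or.inr⟩

lemma zeta_diff (t : ℝ) : DifferentiableAt ℂ riemannZeta (1 / 2 + I * t) := by
  refine differentiableAt_riemannZeta fun h => ?_
  have := congrArg Complex.re h
  norm_num at this

lemma Z_hasDerivAt (t : ℝ) (h : riemannZeta (1 / 2 + I * t) = 0) :
    HasDerivAt Z (phase t * (deriv riemannZeta (1 / 2 + I * t) * I)) t := by
  have hg : HasDerivAt (fun u : ℝ => riemannZeta (1 / 2 + I * u))
      (deriv riemannZeta (1 / 2 + I * t) * I) t := by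
    have h1 : HasDerivAt (fun u : ℝ => (1 / 2 + I * u : ℂ)) I t := by
      have h2 : HasDerivAt (fun u : ℝ => (u : ℂ)) 1 t := Complex.ofRealCLM.hasDerivAt
      simpa using (h2.const_mul I).const_add (1 / 2 : ℂ)
    exact HasDerivAt.comp (h₂ := riemannZeta) t (zeta_diff t).hasDerivAt h1
  rw [hasDerivAt_iff_tendsto_slope] at hg ⊢
  have h3 : Tendsto phase (𝓝[≠] t) (𝓝 (phase t)) :=
    phase_cont.continuousAt.tendsto.mono_left nhdsWithin_le_nhds
  refine (h3.mul hg).congr fun u => ?_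
  have hZ : Z t = 0 := (Z_zero_iff t).mpr h
  rw [slope_def_module, slope_def_module, hZ, h, sub_zero, sub_zero]
  unfold Z
  simp only [Complex.real_smul]
  ring

lemma zeta_analytic {s : ℂ} (hs : s ≠ 1) : AnalyticAt ℂ riemannZeta s := by
  have : DifferentiableOn ℂ riemannZeta ({1}ᶜ : Set ℂ) := fun z hz =>
    (differentiableAt_riemannZeta hz).differentiableWithinAt
  exact this.analyticAt (isOpen_compl_singleton.mem_nhds hs)

/-- a zero of `Z` is simple if the corresponding zero of zeta is simple -/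
lemma simple_of_order {t : ℝ} (h : riemannZeta (1 / 2 + I * t) = 0)
    (h1 : analyticOrderNatAt riemannZeta (1 / 2 + I * t) = 1) : deriv Z t ≠ 0 := by
  rw [(Z_hasDerivAt t h).deriv]
  refine mul_ne_zero (phase_ne t) (mul_ne_zero ?_ I_ne_zero)
  have hs : (1 / 2 + I * t : ℂ) ≠ 1 := by
    intro h
    have := congrArg Complex.re h
    norm_num at this
  have ha := zeta_analytic hs
  have h2 : analyticOrderAt riemannZeta (1 / 2 + I * t) = 1 := by
    unfold analyticOrderNatAt at h1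
    have h3 : analyticOrderAt riemannZeta (1 / 2 + I * t) ≠ ⊤ := by
      intro h4; rw [h4] at h1; simp at h1
    rw [← ENat.coe_toNat h3, h1]; rfl
  have h3 := ha.analyticOrderAt_deriv_add_one
  simp only [h, sub_zero] at h3
  rw [h2] at h3
  have h4 : analyticOrderAt (deriv riemannZeta) (1 / 2 + I * t) = 0 := by
    revert h3
    generalize analyticOrderAt (deriv riemannZeta) (1 / 2 + I * t) = x
    intro h3
    cases x with
    | top => simp at h3
    | coe n =>
      have h6 : n + 1 = 1 := by exact_mod_cast h3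
      have h7 : n = 0 := by omega
      rw [h7]; rfl
  exact ha.deriv.analyticOrderAt_eq_zero.mp h4

lemma phase_norm (t : ℝ) : ‖phase t‖ = 1 := by
  unfold phase
  rw [norm_mul, norm_div, Complex.norm_real, norm_norm, div_self (norm_ne_zero_iff.mpr (gamma_ne t)),
    Complex.norm_exp, one_mul]
  have : (-(I * ((t : ℂ) / 2) * (Real.log Real.pi : ℂ))).re = 0 := by
    have e : -(I * ((t : ℂ) / 2) * (Real.log Real.pi : ℂ)) = ((-(t / 2 * Real.log Real.pi) : ℝ) : ℂ) * I := by
      push_cast; ring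
    rw [e]
    simp
  rw [this, Real.exp_zero]

/-- the set of the zeros that are counted is finite -/
theorem largeZeros_finite (κ ε δ T : ℝ) (hT : 0 ≤ T) : (largeZeros κ ε δ T).Finite := by
  have hinj : Function.Injective fun t : ℝ => (1 / 2 + I * t : ℂ) := by
    intro a b hab
    have := congrArg Complex.im hab
    simpa using this
  refine Set.Finite.of_finite_image ((H370.zeta_zeros_finite (2 * T)).subset ?_) hinj.injOn
  rintro s ⟨t, ⟨h1, h2, h3, h4⟩, rfl⟩
  refine ⟨?_, ?_, ?_, ?_, (Z_zero_iff t).mp h3⟩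
  · simp
  · simp; norm_num
  · simp; linarith
  · simpa using h2

theorem lower : ∃ δ : ℝ, 0 < δ ∧ ∀ κ ε : ℝ, 0 < ε → ∃ T₀ : ℝ, ∀ T : ℝ, T₀ ≤ T →
    T * Real.log T ^ (1 - κ ^ 2 - ε) ≤ ((largeZeros κ ε δ T).ncard : ℝ) := by
  classical
  obtain ⟨δ, hδ, hδ1, h⟩ := Pool.Agent.Y745.LD.final
  refine ⟨δ, hδ, fun κ ε hε => ?_⟩
  rw [← Filter.eventually_atTop]
  have hLL : Tendsto (fun T : ℝ => Real.log (Real.log T)) atTop atTop :=
    Real.tendsto_log_atTop.comp Real.tendsto_log_atTop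
  filter_upwards [h κ (ε / 2) (by positivity), hLL.eventually_ge_atTop (2 * |1 + κ| / ε),
    hLL.eventually_ge_atTop 0, Real.tendsto_log_atTop.eventually_ge_atTop 1, eventually_ge_atTop 10]
    with T h1 h2 h3 h4 h5
  obtain ⟨U1, U2, hU1, hU1', hU2, hU2', hcount⟩ := h1
  set L := Real.log T with hL
  have hL0 : 0 < L := by linarith
  have hT0 : 0 < T := by linarith
  have hLLd : Pool.Agent.Y745.LD.LL T = Real.log L := rfl
  rw [hLLd] at hcount
  have hpow : T * L ^ (1 - κ ^ 2 - ε) ≤ T * L ^ (1 - κ ^ 2 - ε / 2) := by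
    refine mul_le_mul_of_nonneg_left ?_ hT0.le
    exact Real.rpow_le_rpow_of_exponent_le h4 (by linarith)
  refine hpow.trans (hcount.trans ?_)
  have hfin := largeZeros_finite κ ε δ T hT0.le
  rw [Set.ncard_eq_toFinset_card _ hfin]
  norm_cast
  refine Finset.card_le_card_of_injOn (fun s => s.im) ?_ ?_
  · intro s hs
    rw [Finset.mem_coe, Finset.mem_filter] at hs
    obtain ⟨hsI, hs1, hs2, hs3⟩ := hs
    unfold Pool.Agent.Y745.SW.isoS at hsI
    rw [Finset.mem_filter] at hsI
    obtain ⟨hsZ, hre, hmul, hiso⟩ := hsI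
    have hsz := (H370.mem_Zf H370.good_zeta (by linarith : 1 ≤ U1)).mp hsZ
    have hs0 : (1 / 2 + I * s.im : ℂ) = s := by
      apply Complex.ext
      · simp [hre]
      · simp
    have hz : riemannZeta (1 / 2 + I * (s.im : ℂ)) = 0 := by rw [hs0]; exact hsz.2.2.2.2
    have hd : deriv Z s.im ≠ 0 := simple_of_order hz (by rw [hs0]; exact hmul)
    have hn : ‖deriv Z s.im‖ = ‖deriv riemannZeta s‖ := by
      rw [(Z_hasDerivAt s.im hz).deriv, norm_mul, norm_mul, phase_norm, Complex.norm_I, one_mul,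
        mul_one, hs0]
    have hn0 : 0 < ‖deriv riemannZeta s‖ := by rw [← hn]; exact norm_pos_iff.2 hd
    -- the logarithms
    have ht1 : L ≤ Real.log s.im := Real.log_le_log hT0 (by linarith)
    have ht2 : Real.log s.im ≤ L + 1 := by
      have h6 := Real.log_le_log (by linarith) (show s.im ≤ 2 * T by linarith)
      rw [Real.log_mul (by norm_num) hT0.ne', ← hL] at h6
      have := Real.log_two_lt_d9
      linarith
    have hlt0 : 0 < Real.log s.im := by linarith
    have hl1 : Real.log L ≤ Real.log (Real.log s.im) := Real.log_le_log hL0 ht1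
    have hl2 : Real.log (Real.log s.im) ≤ Real.log L + 1 := by
      have h6 : Real.log (Real.log s.im) ≤ Real.log (L + 1) := Real.log_le_log hlt0 ht2
      have h7 : Real.log (L + 1) = Real.log L + Real.log (1 + 1 / L) := by
        rw [← Real.log_mul hL0.ne' (by positivity)]
        congr 1
        field_simp
      have h8 : Real.log (1 + 1 / L) ≤ 1 / L := by
        have := Real.log_le_sub_one_of_pos (show (0:ℝ) < 1 + 1 / L by positivity)
        linarith
      have h9 : 1 / L ≤ 1 := by rw [div_le_one hL0]; exact h4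
      linarith
    set ℓ := Real.log L with hℓ
    set ℓ' := Real.log (Real.log s.im) with hℓ'
    have hmain : |Real.log ‖deriv riemannZeta s‖ - (1 + κ) * ℓ'| ≤ ε * ℓ' := by
      have h6 : |(1 + κ) * ℓ - (1 + κ) * ℓ'| ≤ |1 + κ| := by
        rw [← mul_sub, abs_mul]
        have h7 : |ℓ - ℓ'| ≤ 1 := by rw [abs_le]; constructor <;> linarith
        calc |1 + κ| * |ℓ - ℓ'| ≤ |1 + κ| * 1 := mul_le_mul_of_nonneg_left h7 (abs_nonneg _)
          _ = _ := mul_one _
      have h7 : |1 + κ| ≤ ε / 2 * ℓ := by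
        rw [div_le_iff₀ hε] at h2
        linarith
      have h8 : ε * ℓ ≤ ε * ℓ' := mul_le_mul_of_nonneg_left hl1 hε.le
      have h9 := abs_le.1 hs3
      have h10 := abs_le.1 h6
      rw [abs_le]
      constructor
      · linarith [h9.1, h10.1]
      · linarith [h9.2, h10.2]
    have h9 := abs_le.1 hmain
    rw [Set.Finite.coe_toFinset]
    refine ⟨by linarith, by linarith, (Z_zero_iff _).mpr hz, hd, ?_, ?_, ?_⟩
    · intro s' b1 b2 b3 b4
      rw [hs0] at b4 ⊢
      by_contra hcon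
      push Not at hcon
      have h10 : δ / Real.log s.im ≤ δ / L := div_le_div_of_nonneg_left hδ.le hL0 ht1
      have h11 : δ / L ≤ 1 := by rw [div_le_one hL0]; linarith
      have h12 : ‖s' - s‖ < 1 := by linarith
      have h13 := (Complex.abs_im_le_norm _).trans_lt h12
      rw [Complex.sub_im, abs_lt] at h13
      have h14 : s' ∈ H370.Zf riemannZeta U1 U2 :=
        (H370.mem_Zf H370.good_zeta (by linarith : 1 ≤ U1)).mpr ⟨b2, b3, by linarith [h13.1], by linarith [h13.2], b1⟩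
      have h15 := hiso s' h14 b4
      rw [norm_sub_rev] at h15
      linarith
    · rw [hn, Real.rpow_def_of_pos hlt0, ← Real.le_log_iff_exp_le hn0]
      linarith [h9.1]
    · rw [hn, Real.rpow_def_of_pos hlt0, ← Real.log_le_iff_le_exp hn0]
      linarith [h9.2]
  · intro s hs s' hs' h6
    rw [Finset.mem_coe, Finset.mem_filter] at hs hs'
    have a1 := hs.1
    have a2 := hs'.1
    unfold Pool.Agent.Y745.SW.isoS at a1 a2
    rw [Finset.mem_filter] at a1 a2
    exact Complex.ext (a1.2.1.trans a2.2.1.symm) h6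

lemma realZeros_finite (T : ℝ) (hT : 0 ≤ T) : (realZeros T).Finite := by
  have hinj : Function.Injective fun t : ℝ => (1 / 2 + I * t : ℂ) := by
    intro a b hab
    have := congrArg Complex.im hab
    simpa using this
  refine Set.Finite.of_finite_image ((H370.zeta_zeros_finite (2 * T)).subset ?_) hinj.injOn
  rintro s ⟨t, ⟨h1, h2, h3⟩, rfl⟩
  refine ⟨?_, ?_, ?_, ?_, (Z_zero_iff t).mp h3⟩
  · simp
  · simp; norm_num
  · simp; linarith
  · simpa using h2

lemma norm_deriv_Z {t : ℝ} (h : Z t = 0) : ‖deriv Z t‖ = ‖deriv riemannZeta (1 / 2 + I * t)‖ := by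
  rw [(Z_hasDerivAt t ((Z_zero_iff t).mp h)).deriv, norm_mul, norm_mul, phase_norm, Complex.norm_I, one_mul,
    mul_one]

lemma mem_Zf_of {T t : ℝ} (hT : 1 ≤ T) (h : t ∈ realZeros T) :
    (1 / 2 + I * t : ℂ) ∈ H370.Zf riemannZeta T (2 * T) := by
  obtain ⟨h1, h2, h3⟩ := h
  refine (H370.mem_Zf H370.good_zeta hT).mpr ⟨?_, ?_, ?_, ?_, (Z_zero_iff t).mp h3⟩
  · simp
  · simp; norm_num
  · simpa using h1
  · simpa using h2

lemma zerosAbove_finite (κ T : ℝ) (hT : 0 ≤ T) : (zerosAbove κ T).Finite :=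
  (realZeros_finite T hT).subset fun _ h => h.1

open Classical in
lemma above_le {κ T : ℝ} (hT : 1 ≤ T) : ((zerosAbove κ T).ncard : ℝ) ≤
    (((H370.Zf riemannZeta T (2 * T)).filter (fun s => s.re = 1 / 2 ∧
      Real.log s.im ^ (1 + κ) ≤ ‖deriv riemannZeta s‖)).card : ℝ) := by
  have hfin := zerosAbove_finite κ T (by linarith)
  rw [Set.ncard_eq_toFinset_card _ hfin]
  norm_cast
  refine Finset.card_le_card_of_injOn (fun t : ℝ => (1 / 2 + I * t : ℂ)) ?_ ?_
  · intro t ht
    rw [Set.Finite.coe_toFinset] at ht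
    rw [Finset.coe_filter]
    refine ⟨mem_Zf_of hT ht.1, by simp, ?_⟩
    have h1 := ht.2
    rw [norm_deriv_Z ht.1.2.2] at h1
    simpa using h1
  · intro a _ b _ hab
    have := congrArg Complex.im hab
    simpa using this

/-- the sum over the real zeros as a sum over zeros of zeta, from above -/
lemma moment_le {k T : ℝ} (hT : 1 ≤ T) : ∑ᶠ t ∈ realZeros T, ‖deriv Z t‖ ^ (2 * k) ≤
    ∑ s ∈ (H370.Zf riemannZeta T (2 * T)).filter (fun s => s.re = 1 / 2), ‖deriv riemannZeta s‖ ^ (2 * k) := by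
  classical
  have hfin := realZeros_finite T (by linarith)
  rw [finsum_mem_eq_finite_toFinset_sum _ hfin]
  have hinj : Set.InjOn (fun t : ℝ => (1 / 2 + I * t : ℂ)) (hfin.toFinset : Set ℝ) := by
    intro a _ b _ hab
    have := congrArg Complex.im hab
    simpa using this
  have e : ∑ t ∈ hfin.toFinset, ‖deriv Z t‖ ^ (2 * k) =
      ∑ s ∈ hfin.toFinset.image (fun t : ℝ => (1 / 2 + I * t : ℂ)), ‖deriv riemannZeta s‖ ^ (2 * k) := by
    rw [Finset.sum_image hinj]
    refine Finset.sum_congr rfl fun t ht => ?_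
    rw [Set.Finite.mem_toFinset] at ht
    rw [norm_deriv_Z ht.2.2]
  rw [e]
  refine Finset.sum_le_sum_of_subset_of_nonneg ?_ fun s _ _ => by positivity
  intro s hs
  rw [Finset.mem_image] at hs
  obtain ⟨t, ht, rfl⟩ := hs
  rw [Set.Finite.mem_toFinset] at ht
  rw [Finset.mem_filter]
  exact ⟨mem_Zf_of hT ht, by simp⟩

lemma LL_tendsto : Tendsto (fun T : ℝ => Real.log (Real.log T)) atTop atTop :=
  Real.tendsto_log_atTop.comp Real.tendsto_log_atTop

/-- the limit from the bounds -/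
lemma tendsto_of_bounds {f : ℝ → ℝ} {a : ℝ}
    (hlo : ∀ ε : ℝ, 0 < ε → ∀ᶠ T : ℝ in atTop, T * Real.log T ^ (a - ε) ≤ f T)
    (hup : ∀ ε : ℝ, 0 < ε → ∀ᶠ T : ℝ in atTop, f T ≤ T * Real.log T ^ (a + ε)) :
    Tendsto (fun T : ℝ => Real.log (f T / T) / Real.log (Real.log T)) atTop (𝓝 a) := by
  rw [Metric.tendsto_nhds]
  intro e he
  filter_upwards [hlo (e / 2) (by positivity), hup (e / 2) (by positivity), LL_tendsto.eventually_ge_atTop 1,
    Real.tendsto_log_atTop.eventually_ge_atTop 1, eventually_ge_atTop 1] with T h1 h2 h3 h4 h5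
  have hT0 : 0 < T := by linarith
  have hL0 : 0 < Real.log T := by linarith
  have hLL0 : 0 < Real.log (Real.log T) := by linarith
  have p1 : Real.log T ^ (a - e / 2) ≤ f T / T := by
    rw [le_div_iff₀ hT0]; linarith
  have p2 : f T / T ≤ Real.log T ^ (a + e / 2) := by
    rw [div_le_iff₀ hT0]; linarith
  have p0 : 0 < f T / T := lt_of_lt_of_le (Real.rpow_pos_of_pos hL0 _) p1
  have q1 : (a - e / 2) * Real.log (Real.log T) ≤ Real.log (f T / T) := by
    have := Real.log_le_log (Real.rpow_pos_of_pos hL0 _) p1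
    rwa [Real.log_rpow hL0] at this
  have q2 : Real.log (f T / T) ≤ (a + e / 2) * Real.log (Real.log T) := by
    have := Real.log_le_log p0 p2
    rwa [Real.log_rpow hL0] at this
  rw [Real.dist_eq, abs_lt]
  constructor
  · have : a - e / 2 ≤ Real.log (f T / T) / Real.log (Real.log T) := by
      rw [le_div_iff₀ hLL0]; exact q1
    linarith
  · have : Real.log (f T / T) / Real.log (Real.log T) ≤ a + e / 2 := by
      rw [div_le_iff₀ hLL0]; exact q2
    linarith

/-- the lower bound for the number of zeros above the threshold -/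
lemma above_ge {κ ε : ℝ} (hκ : 0 ≤ κ) (hε : 0 < ε) : ∀ᶠ T : ℝ in atTop,
    T * Real.log T ^ (1 - κ ^ 2 - ε) ≤ ((zerosAbove κ T).ncard : ℝ) := by
  obtain ⟨δ, -, h⟩ := lower
  set η : ℝ := min 1 (ε / (4 * (κ + 1))) with hη
  have hη0 : 0 < η := by positivity
  have hη1 : η ≤ 1 := min_le_left _ _
  have hη2 : η * (4 * (κ + 1)) ≤ ε := by
    have : η ≤ ε / (4 * (κ + 1)) := min_le_right _ _
    rwa [le_div_iff₀ (by positivity)] at this
  have h1 := h (κ + η) (min η (ε / 4)) (by positivity)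
  rw [← Filter.eventually_atTop] at h1
  filter_upwards [h1, Real.tendsto_log_atTop.eventually_ge_atTop 1, eventually_ge_atTop 1] with T hT hL hT1
  have hT0 : 0 < T := by linarith
  refine le_trans ?_ (hT.trans ?_)
  · refine mul_le_mul_of_nonneg_left ?_ hT0.le
    refine Real.rpow_le_rpow_of_exponent_le hL ?_
    have h2 : min η (ε / 4) ≤ ε / 4 := min_le_right _ _
    nlinarith
  · norm_cast
    refine Set.ncard_le_ncard ?_ (zerosAbove_finite κ T hT0.le)
    rintro t ⟨a1, a2, a3, a4, a5, a6, a7⟩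
    refine ⟨⟨a1, a2, a3⟩, le_trans ?_ a6⟩
    have hlt : 1 ≤ Real.log t := hL.trans (Real.log_le_log hT0 a1.le)
    refine Real.rpow_le_rpow_of_exponent_le hlt ?_
    have h2 : min η (ε / 4) ≤ η := min_le_left _ _
    linarith

/-- the lower bound for the moments -/
lemma moment_ge {k ε : ℝ} (hk : 0 < k) (hε : 0 < ε) : ∀ᶠ T : ℝ in atTop,
    T * Real.log T ^ ((k + 1) ^ 2 - ε) ≤ ∑ᶠ t ∈ realZeros T, ‖deriv Z t‖ ^ (2 * k) := by
  filter_upwards [above_ge hk.le hε, Real.tendsto_log_atTop.eventually_ge_atTop 1, eventually_ge_atTop 1] with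
    T hT hL hT1
  have hT0 : 0 < T := by linarith
  have hL0 : 0 < Real.log T := by linarith
  have hfin := realZeros_finite T hT0.le
  have hfin2 := zerosAbove_finite k T hT0.le
  rw [finsum_mem_eq_finite_toFinset_sum _ hfin]
  have h1 : ((zerosAbove k T).ncard : ℝ) * (Real.log T ^ (1 + k)) ^ (2 * k) ≤
      ∑ t ∈ hfin2.toFinset, ‖deriv Z t‖ ^ (2 * k) := by
    rw [Set.ncard_eq_toFinset_card _ hfin2, ← nsmul_eq_mul]
    refine Finset.card_nsmul_le_sum _ _ _ fun t ht => ?_
    rw [Set.Finite.mem_toFinset] at ht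
    refine Real.rpow_le_rpow (by positivity) (le_trans ?_ ht.2) (by linarith)
    exact Real.rpow_le_rpow hL0.le (Real.log_le_log hT0 ht.1.1.le) (by linarith)
  have h2 : ∑ t ∈ hfin2.toFinset, ‖deriv Z t‖ ^ (2 * k) ≤ ∑ t ∈ hfin.toFinset, ‖deriv Z t‖ ^ (2 * k) := by
    refine Finset.sum_le_sum_of_subset_of_nonneg ?_ fun s _ _ => by positivity
    intro t ht
    rw [Set.Finite.mem_toFinset] at ht ⊢
    exact ht.1
  refine le_trans ?_ (h1.trans h2)
  have h3 := mul_le_mul_of_nonneg_right hT (show 0 ≤ (Real.log T ^ (1 + k)) ^ (2 * k) by positivity)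
  refine le_trans (le_of_eq ?_) h3
  rw [← Real.rpow_mul hL0.le, mul_assoc, ← Real.rpow_add hL0]
  congr 2
  ring

/-- **the exact exponents** -/
theorem result :
    -- the number of zeros with a large derivative
    (∀ κ : ℝ, 0 ≤ κ → κ ≤ 2 → Tendsto (fun T : ℝ =>
      Real.log (((zerosAbove κ T).ncard : ℝ) / T) / Real.log (Real.log T)) atTop (𝓝 (1 - κ ^ 2))) ∧
    -- the moments
    (∀ k : ℝ, 0 < k → k < 2 → Tendsto (fun T : ℝ =>
      Real.log ((∑ᶠ t ∈ realZeros T, ‖deriv Z t‖ ^ (2 * k)) / T) / Real.log (Real.log T)) atTop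
        (𝓝 ((k + 1) ^ 2))) ∧
    -- simple isolated zeros with a derivative of prescribed size
    (∃ δ : ℝ, 0 < δ ∧ ∀ κ ε : ℝ, 0 < ε → ∃ T₀ : ℝ, ∀ T : ℝ, T₀ ≤ T →
      T * Real.log T ^ (1 - κ ^ 2 - ε) ≤ ((largeZeros κ ε δ T).ncard : ℝ)) := by
  refine ⟨fun κ h0 h2 => ?_, fun k h0 h2 => ?_, lower⟩
  · refine tendsto_of_bounds (fun ε hε => above_ge h0 hε) fun ε hε => ?_
    filter_upwards [Pool.Agent.Y745.UP.upb_count Pool.Agent.Y745.UP.a_UPB h0 h2 hε, eventually_ge_atTop 1] with T hT hT1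
    exact (above_le hT1).trans hT
  · refine tendsto_of_bounds (fun ε hε => moment_ge h0 hε) fun ε hε => ?_
    filter_upwards [Pool.Agent.Y745.UP.a_UPB k ε h0 h2 hε, eventually_ge_atTop 1] with T hT hT1
    exact (moment_le hT1).trans hT

end Pool.Agent.Results.MP_6bc78b_nt.LargeDeviationExponents
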