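import Pool.Agent.Y757.LM.Win
import Pool.Agent.W54.TCF.ZMult

set_option autoImplicit false

/-!
# Large deviations of the multiplicity of the zeros of Hardy's function

Unconditionally, for `0 ≤ θ < 1 / (2 π)` the zeros of `Z` in `(0, T]` of multiplicity at least
`θ log t`, counted with multiplicity, number at most `T ^ (√(1 - 4 π² θ²) + ε)`, and the sum of
`exp (λ m)` over the distinct zeros of `Z` in `(0, T]`, `m` the multiplicity, is at most
`T ^ (√(1 + λ² / (4 π²)) + ε)`.  The same bounds hold for the number of all zeros of zeta with ordinate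
in a short window `[t - h, t + h]`, `t` in `[T, 2 T]`.

The proof: if `|Z(u)| ≤ T ^ κ` for `|u - T| ≤ log T` only, then the number of zeros with ordinate in
`[T - h, T + h]` is at most `(√(2κ(1-2κ)) / π + ε) log T`, and by the fourth moment this fails in a set of
measure at most `T ^ (1 - 4κ + ε)`.
-/

open Filter Topology Complex MeasureTheory

namespace Pool.Agent.Results.MP_6bc78b_nt.LargeMultiplicities

/-- the phase `exp (i ϑ(t))`, with `ϑ(t) = arg Γ(1/4 + i t / 2) - (t / 2) log π` -/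
noncomputable def phase (t : ℝ) : ℂ :=
  Gamma (1 / 4 + I * t / 2) / ‖Gamma (1 / 4 + I * t / 2)‖ * cexp (-(I * (t / 2) * Real.log Real.pi))

/-- Hardy's function `Z(t) = exp (i ϑ(t)) ζ(1/2 + i t)` -/
noncomputable def Z (t : ℝ) : ℂ := phase t * riemannZeta (1 / 2 + I * t)

/-- the multiplicity of a real zero `t` of `Z`: the least `m ≥ 1` such that the `m`-th derivative of
`Z` at `t` is not zero -/
noncomputable def mlt (t : ℝ) : ℕ := sInf {m : ℕ | 1 ≤ m ∧ iteratedDeriv m Z t ≠ 0}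

/-- the real zeros of `Z` in `(0, T]` -/
def realZeros (T : ℝ) : Set ℝ := {t : ℝ | 0 < t ∧ t ≤ T ∧ Z t = 0}

/-- the nontrivial zeros of zeta with ordinate in `[T - h, T + h]` -/
def zeros (T h : ℝ) : Set ℂ := {s : ℂ | riemannZeta s = 0 ∧ 0 < s.re ∧ s.re < 1 ∧ |s.im - T| ≤ h}

/-- the number of nontrivial zeros of zeta with ordinate in `[T - h, T + h]`, counted with
multiplicity -/
noncomputable def N (T h : ℝ) : ℕ := ∑ᶠ s ∈ zeros T h, analyticOrderNatAt riemannZeta s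

lemma Z_norm (t : ℝ) : ‖Z t‖ = ‖riemannZeta (1 / 2 + t * I)‖ := by
  unfold Z phase
  have h1 : ‖Gamma (1 / 4 + I * t / 2)‖ ≠ 0 := by
    rw [norm_ne_zero_iff]
    exact Pool.Agent.W54.TCF.gamma_ne t
  have h2 : (-(I * (t / 2) * Real.log Real.pi)) = ((-(t / 2 * Real.log Real.pi) : ℝ) : ℂ) * I := by
    push_cast; ring
  rw [norm_mul, norm_mul, norm_div, Complex.norm_real, norm_norm, div_self h1, h2,
    Complex.norm_exp_ofReal_mul_I, one_mul, one_mul, mul_comm I]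

lemma half_eq (t : ℝ) : (1 / 2 + I * t : ℂ) = ⟨1 / 2, t⟩ := by
  apply Complex.ext <;> simp

lemma Z_zero (t : ℝ) : Z t = 0 ↔ riemannZeta ⟨1 / 2, t⟩ = 0 := by
  have := Pool.Agent.W54.TCF.Z_zero_iff t
  rw [half_eq] at this
  exact this

lemma mlt_mm (t : ℝ) (ht : Z t = 0) : mlt t = Pool.Agent.Y757.LM.mm t := by
  have h := Pool.Agent.W54.TCF.mlt_eq t ht (TH809.MZ.order_ne_top (Pool.Agent.W54.TCF.half_ne t))
  rw [half_eq] at h
  exact h

/-- **Theorem.**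
* Let `0 ≤ κ ≤ 1/4`.  For every `ε > 0` there is `h > 0` such that for all large `T` for which
  `|Z(u)| ≤ T ^ κ` whenever `|u - T| ≤ log T`, the number of nontrivial zeros of zeta with ordinate in
  `[T - h, T + h]`, counted with multiplicity, is at most `(√(2κ(1-2κ)) / π + ε) log T`.
* Let `0 < θ < 1 / (2π)`.  For every `ε > 0` there is `h > 0` such that for all large `T` the set of the
  `t` in `[T, 2T]` for which that number is at least `θ log t` has (outer) measure at most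
  `T ^ (√(1 - 4π²θ²) + ε)`.
* Let `λ ≥ 0`.  For every `ε > 0` there is `h > 0` such that for all large `T` the integral of
  `exp (λ N(t, h))` over `[T, 2T]` is at most `T ^ (√(1 + λ²/(4π²)) + ε)`.
* The real zeros of `Z` in `(0, T]` are finite in number.
* Let `0 ≤ θ < 1 / (2π)`.  For every `ε > 0` and all large `T` the real zeros `t` of `Z` in `(0, T]` of
  multiplicity at least `θ log t`, counted with multiplicity, number at most `T ^ (√(1 - 4π²θ²) + ε)`.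
* Let `λ ≥ 0`.  For every `ε > 0` and all large `T` the sum of `exp (λ mlt t)` over the distinct real
  zeros `t` of `Z` in `(0, T]` is at most `T ^ (√(1 + λ²/(4π²)) + ε)`. -/
theorem result :
    (∀ κ : ℝ, 0 ≤ κ → κ ≤ 1 / 4 → ∀ ε : ℝ, 0 < ε → ∃ h : ℝ, 0 < h ∧ ∃ T0 : ℝ, ∀ T : ℝ, T0 ≤ T →
      (∀ u : ℝ, |u - T| ≤ Real.log T → ‖Z u‖ ≤ T ^ κ) → (zeros T h).Finite ∧
        (N T h : ℝ) ≤ (Real.sqrt (2 * κ * (1 - 2 * κ)) / Real.pi + ε) * Real.log T) ∧
    (∀ θ : ℝ, 0 < θ → θ < 1 / (2 * Real.pi) → ∀ ε : ℝ, 0 < ε → ∃ h : ℝ, 0 < h ∧ ∃ T0 : ℝ,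
      ∀ T : ℝ, T0 ≤ T → volume {t : ℝ | T ≤ t ∧ t ≤ 2 * T ∧ θ * Real.log t ≤ (N t h : ℝ)} ≤
        ENNReal.ofReal (T ^ (Real.sqrt (1 - 4 * Real.pi ^ 2 * θ ^ 2) + ε))) ∧
    (∀ lam : ℝ, 0 ≤ lam → ∀ ε : ℝ, 0 < ε → ∃ h : ℝ, 0 < h ∧ ∃ T0 : ℝ, ∀ T : ℝ, T0 ≤ T →
      ∫⁻ t in Set.Icc T (2 * T), ENNReal.ofReal (Real.exp (lam * N t h)) ≤
        ENNReal.ofReal (T ^ (Real.sqrt (1 + lam ^ 2 / (4 * Real.pi ^ 2)) + ε))) ∧
    (∀ T : ℝ, (realZeros T).Finite) ∧
    (∀ θ : ℝ, 0 ≤ θ → θ < 1 / (2 * Real.pi) → ∀ ε : ℝ, 0 < ε → ∃ T0 : ℝ, ∀ T : ℝ, T0 ≤ T →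
      ∑ᶠ t ∈ {t : ℝ | t ∈ realZeros T ∧ θ * Real.log t ≤ mlt t}, (mlt t : ℝ) ≤
        T ^ (Real.sqrt (1 - 4 * Real.pi ^ 2 * θ ^ 2) + ε)) ∧
    (∀ lam : ℝ, 0 ≤ lam → ∀ ε : ℝ, 0 < ε → ∃ T0 : ℝ, ∀ T : ℝ, T0 ≤ T →
      ∑ᶠ t ∈ realZeros T, Real.exp (lam * mlt t) ≤
        T ^ (Real.sqrt (1 + lam ^ 2 / (4 * Real.pi ^ 2)) + ε)) := by
  have hfin : ∀ T : ℝ, (realZeros T).Finite := fun T =>
    (Pool.Agent.Y757.LM.crit_finite T).subset fun t ht => ⟨ht.1, ht.2.1, (Z_zero t).1 ht.2.2⟩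
  refine ⟨?_, ?_, ?_, hfin, ?_, ?_⟩
  · intro κ h0 h1 ε hε
    obtain ⟨h, C, hh, H⟩ := Pool.Agent.Y757.LM.window_loc h0 h1 (half_pos hε)
    refine ⟨h, hh, max (Real.exp 4) (Real.exp (2 * |C| / ε)), fun T hT hloc => ?_⟩
    have hT4 : Real.exp 4 ≤ T := (le_max_left _ _).trans hT
    have hT1 : 1 ≤ T := (Real.one_le_exp (by norm_num)).trans hT4
    have hT0 : 0 < T := by linarith
    have hlog4 : 4 ≤ Real.log T := by rw [Real.le_log_iff_exp_le hT0]; exact hT4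
    obtain ⟨g1, g2⟩ := H T hT1 hlog4 (fun y hy => by
      have h3 := hloc (T + y) (by rwa [add_sub_cancel_left])
      rw [Z_norm] at h3
      have e : (1 / 2 + ((T + y : ℝ) : ℂ) * I : ℂ) = ⟨1 / 2, T + y⟩ := by
        apply Complex.ext <;> simp
      rwa [e] at h3)
    refine ⟨g1, ?_⟩
    have hlog : 2 * |C| / ε ≤ Real.log T := by
      rw [Real.le_log_iff_exp_le hT0]
      exact (le_max_right _ _).trans hT
    have h2 : C ≤ ε / 2 * Real.log T := by
      have h3 : |C| ≤ ε / 2 * Real.log T := by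
        rw [div_le_iff₀ hε] at hlog
        linarith
      exact (le_abs_self C).trans h3
    have h3 : (N T h : ℝ) ≤ (TH809.MZ.cc κ + ε / 2) * Real.log T + C := g2
    have h4 : TH809.MZ.cc κ = Real.sqrt (2 * κ * (1 - 2 * κ)) / Real.pi := rfl
    rw [h4] at h3
    linarith
  · intro θ h0 h1 ε hε
    obtain ⟨h, hh, X0, hX0, H⟩ := Pool.Agent.Y757.LM.big_le h0 h1 hε
    refine ⟨h, hh, X0, fun T hT => (measure_mono ?_).trans (H T hT)⟩
    rintro t ⟨g1, g2, g3⟩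
    have g4 : θ * Real.log t ≤ (Pool.Agent.Y757.LM.NW t h : ℝ) := g3
    exact ⟨g1, by linarith, by linarith⟩
  · intro lam hl ε hε
    obtain ⟨h, hh, X0, hX0, H⟩ := Pool.Agent.Y757.LM.exp_window hl hε
    exact ⟨h, hh, X0, fun T hT => H T hT⟩
  · intro θ h0 h1 ε hε
    obtain ⟨T0, hT0, H⟩ := Pool.Agent.Y757.LM.mult_all h0 h1 hε
    refine ⟨T0, fun T hT => ?_⟩
    have hf : {t : ℝ | t ∈ realZeros T ∧ θ * Real.log t ≤ mlt t}.Finite :=
      (hfin T).subset fun t ht => ht.1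
    rw [finsum_mem_eq_finite_toFinset_sum _ hf]
    have h2 := H T hT hf.toFinset (fun t ht => by
      rw [hf.mem_toFinset] at ht
      refine ⟨ht.1.1, ht.1.2.1, (Z_zero t).1 ht.1.2.2, ?_⟩
      rw [← mlt_mm t ht.1.2.2]
      exact ht.2)
    refine le_trans (le_of_eq ?_) h2
    push_cast
    refine Finset.sum_congr rfl fun t ht => ?_
    rw [hf.mem_toFinset] at ht
    rw [mlt_mm t ht.1.2.2]
  · intro lam hl ε hε
    obtain ⟨T0, hT0, H⟩ := Pool.Agent.Y757.LM.exp_all hl hε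
    refine ⟨T0, fun T hT => ?_⟩
    rw [finsum_mem_eq_finite_toFinset_sum _ (hfin T)]
    have h2 := H T hT (hfin T).toFinset (fun t ht => by
      rw [(hfin T).mem_toFinset] at ht
      exact ⟨ht.1, ht.2.1, (Z_zero t).1 ht.2.2⟩)
    refine le_trans (le_of_eq ?_) h2
    refine Finset.sum_congr rfl fun t ht => ?_
    rw [(hfin T).mem_toFinset] at ht
    rw [mlt_mm t ht.2.2]

end Pool.Agent.Results.MP_6bc78b_nt.LargeMultiplicities
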