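import Pool.Agent.Y745.SW.Final

/-!
# The law of the derivative of Hardy's function at its zeros

Unconditionally, for every interval `(a, b)` and every `ε > 0` there is a `δ > 0` such that, for all large `T`, at least
`((3/2 - cot (1/√2) / √2) · g (a, b) - ε) N(T)` of the zeros `t` of `Z` in `(0, T]` are simple, have distance at least
`δ / log t` from every other nontrivial zero of zeta, and satisfy
`a < (log |Z'(t)| - log log t) / √(log log t / 2) < b`. Here `g (a, b)` is the mass that the standard normal law gives to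
`(a, b)`, `N(T)` counts all nontrivial zeros of zeta with ordinate in `(0, T]`, with multiplicity, and
`3/2 - cot (1/√2) / √2 = 0.6725…`.
-/

open Filter Topology Complex

namespace Pool.Agent.Results.MP_6bc78b_nt.LawOfDerivative

/-- the phase `exp (i ϑ(t))`, with `ϑ(t) = arg Γ(1/4 + i t / 2) - (t / 2) log π` -/
noncomputable def phase (t : ℝ) : ℂ :=
  Gamma (1 / 4 + I * t / 2) / ‖Gamma (1 / 4 + I * t / 2)‖ * cexp (-(I * (t / 2) * Real.log Real.pi))

/-- Hardy's function `Z(t) = exp (i ϑ(t)) ζ(1/2 + i t)` -/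
noncomputable def Z (t : ℝ) : ℂ := phase t * riemannZeta (1 / 2 + I * t)

/-- the mass of `(a, b)` under the standard normal law -/
noncomputable def normalMass (a b : ℝ) : ℝ := ∫ x in a..b, Real.exp (-x ^ 2 / 2) / Real.sqrt (2 * Real.pi)

/-- the real zeros `t` of `Z` in `(0, T]` that are simple, that have distance at least `δ / log t` from all other
nontrivial zeros of zeta (on or off the critical line), and at which the normalised logarithm of `|Z'(t)|` lies
in `(a, b)` -/
def goodZeros (a b δ T : ℝ) : Set ℝ :=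
  {t : ℝ | 0 < t ∧ t ≤ T ∧ Z t = 0 ∧ deriv Z t ≠ 0 ∧
    (∀ s : ℂ, riemannZeta s = 0 → 0 < s.re → s.re < 1 → s ≠ 1 / 2 + I * t →
      δ / Real.log t ≤ ‖s - (1 / 2 + I * t)‖) ∧
    a < (Real.log ‖deriv Z t‖ - Real.log (Real.log t)) / Real.sqrt (Real.log (Real.log t) / 2) ∧
    (Real.log ‖deriv Z t‖ - Real.log (Real.log t)) / Real.sqrt (Real.log (Real.log t) / 2) < b}

/-- the nontrivial zeros of zeta with ordinate in `(0, T]` -/
def zeros (T : ℝ) : Set ℂ :=
  {s : ℂ | riemannZeta s = 0 ∧ 0 < s.re ∧ s.re < 1 ∧ 0 < s.im ∧ s.im ≤ T}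

/-- the number of nontrivial zeros with ordinate in `(0, T]`, counted with multiplicity -/
noncomputable def N (T : ℝ) : ℕ := ∑ᶠ s ∈ zeros T, analyticOrderNatAt riemannZeta s

lemma gamma_ne (t : ℝ) : Gamma (1 / 4 + I * t / 2) ≠ 0 := by
  apply Gamma_ne_zero_of_re_pos
  simp

lemma gamma_cont : Continuous fun t : ℝ => Gamma (1 / 4 + I * t / 2) := by
  rw [continuous_iff_continuousAt]
  intro t
  have h1 : ContinuousAt Gamma (1 / 4 + I * t / 2) := by
    refine (differentiableAt_Gamma _ fun m hm => ?_).continuousAt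
    have := congrArg Complex.re hm
    simp at this
    have hm0 : (0 : ℝ) ≤ m := Nat.cast_nonneg m
    linarith
  exact ContinuousAt.comp (f := fun t : ℝ => (1 / 4 + I * t / 2 : ℂ)) h1 (by fun_prop)

lemma phase_cont : Continuous phase := by
  unfold phase
  refine Continuous.mul (gamma_cont.div ?_ ?_) (by fun_prop)
  · exact Complex.continuous_ofReal.comp gamma_cont.norm
  · intro t
    rw [Complex.ofReal_ne_zero]
    exact norm_ne_zero_iff.mpr (gamma_ne t)

lemma phase_ne (t : ℝ) : phase t ≠ 0 := by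
  unfold phase
  refine mul_ne_zero (div_ne_zero (gamma_ne t) ?_) (Complex.exp_ne_zero _)
  rw [Complex.ofReal_ne_zero]
  exact norm_ne_zero_iff.mpr (gamma_ne t)

lemma Z_zero_iff (t : ℝ) : Z t = 0 ↔ riemannZeta (1 / 2 + I * t) = 0 := by
  unfold Z
  rw [mul_eq_zero]
  exact ⟨fun h => h.resolve_left (phase_ne t), Or.inr⟩

lemma zeta_diff (t : ℝ) : DifferentiableAt ℂ riemannZeta (1 / 2 + I * t) := by
  refine differentiableAt_riemannZeta fun h => ?_
  have := congrArg Complex.re h
  norm_num at this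

lemma Z_hasDerivAt (t : ℝ) (h : riemannZeta (1 / 2 + I * t) = 0) :
    HasDerivAt Z (phase t * (deriv riemannZeta (1 / 2 + I * t) * I)) t := by
  have hg : HasDerivAt (fun u : ℝ => riemannZeta (1 / 2 + I * u))
      (deriv riemannZeta (1 / 2 + I * t) * I) t := by
    have h1 : HasDerivAt (fun u : ℝ => (1 / 2 + I * u : ℂ)) I t := by
      have h2 : HasDerivAt (fun u : ℝ => (u : ℂ)) 1 t := Complex.ofRealCLM.hasDerivAt
      simpa using (h2.const_mul I).const_add (1 / 2 : ℂ)
    exact HasDerivAt.comp (h₂ := riemannZeta) t (zeta_diff t).hasDerivAt h1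
  rw [hasDerivAt_iff_tendsto_slope] at hg ⊢
  have h3 : Tendsto phase (𝓝[≠] t) (𝓝 (phase t)) :=
    phase_cont.continuousAt.tendsto.mono_left nhdsWithin_le_nhds
  refine (h3.mul hg).congr fun u => ?_
  have hZ : Z t = 0 := (Z_zero_iff t).mpr h
  rw [slope_def_module, slope_def_module, hZ, h, sub_zero, sub_zero]
  unfold Z
  simp only [Complex.real_smul]
  ring

lemma zeta_analytic {s : ℂ} (hs : s ≠ 1) : AnalyticAt ℂ riemannZeta s := by
  have : DifferentiableOn ℂ riemannZeta ({1}ᶜ : Set ℂ) := fun z hz =>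
    (differentiableAt_riemannZeta hz).differentiableWithinAt
  exact this.analyticAt (isOpen_compl_singleton.mem_nhds hs)

/-- a zero of `Z` is simple if the corresponding zero of zeta is simple -/
lemma simple_of_order {t : ℝ} (h : riemannZeta (1 / 2 + I * t) = 0)
    (h1 : analyticOrderNatAt riemannZeta (1 / 2 + I * t) = 1) : deriv Z t ≠ 0 := by
  rw [(Z_hasDerivAt t h).deriv]
  refine mul_ne_zero (phase_ne t) (mul_ne_zero ?_ I_ne_zero)
  have hs : (1 / 2 + I * t : ℂ) ≠ 1 := by
    intro h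
    have := congrArg Complex.re h
    norm_num at this
  have ha := zeta_analytic hs
  have h2 : analyticOrderAt riemannZeta (1 / 2 + I * t) = 1 := by
    unfold analyticOrderNatAt at h1
    have h3 : analyticOrderAt riemannZeta (1 / 2 + I * t) ≠ ⊤ := by
      intro h4; rw [h4] at h1; simp at h1
    rw [← ENat.coe_toNat h3, h1]; rfl
  have h3 := ha.analyticOrderAt_deriv_add_one
  simp only [h, sub_zero] at h3
  rw [h2] at h3
  have h4 : analyticOrderAt (deriv riemannZeta) (1 / 2 + I * t) = 0 := by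
    revert h3
    generalize analyticOrderAt (deriv riemannZeta) (1 / 2 + I * t) = x
    intro h3
    cases x with
    | top => simp at h3
    | coe n =>
      have h6 : n + 1 = 1 := by exact_mod_cast h3
      have h7 : n = 0 := by omega
      rw [h7]; rfl
  exact ha.deriv.analyticOrderAt_eq_zero.mp h4

lemma zeros_eq (T : ℝ) : zeros T = H370.zset riemannZeta 0 T := by
  ext s
  simp only [zeros, H370.zset, Set.mem_ofPred_eq]
  tauto

/-- the set of nontrivial zeros up to height `T` is finite -/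
theorem zeros_finite (T : ℝ) : (zeros T).Finite := by
  rw [zeros_eq]
  exact H370.zeta_zeros_finite T

lemma N_eq (T : ℝ) : N T = H370.NN riemannZeta 0 T := by
  unfold N H370.NN H370.mult
  rw [zeros_eq]

lemma phase_norm (t : ℝ) : ‖phase t‖ = 1 := by
  unfold phase
  rw [norm_mul, norm_div, Complex.norm_real, norm_norm, div_self (norm_ne_zero_iff.mpr (gamma_ne t)),
    Complex.norm_exp, one_mul]
  have : (-(I * ((t : ℂ) / 2) * (Real.log Real.pi : ℂ))).re = 0 := by
    have e : -(I * ((t : ℂ) / 2) * (Real.log Real.pi : ℂ)) = ((-(t / 2 * Real.log Real.pi) : ℝ) : ℂ) * I := by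
      push_cast; ring
    rw [e]
    simp
  rw [this, Real.exp_zero]

/-- the set of the zeros that are counted is finite -/
theorem goodZeros_finite (a b δ T : ℝ) : (goodZeros a b δ T).Finite := by
  have hinj : Function.Injective fun t : ℝ => (1 / 2 + I * t : ℂ) := by
    intro a b hab
    have := congrArg Complex.im hab
    simpa using this
  refine Set.Finite.of_finite_image ((zeros_finite T).subset ?_) hinj.injOn
  rintro s ⟨t, ⟨h1, h2, h3, h4⟩, rfl⟩
  refine ⟨(Z_zero_iff t).mp h3, ?_, ?_, ?_, ?_⟩ <;> simp <;> first | assumption | norm_num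

lemma nrm_eq (t y : ℝ) : Pool.Agent.Y745.SW.nrm t y =
    (y - Real.log (Real.log t)) / Real.sqrt (Real.log (Real.log t) / 2) := by
  unfold Pool.Agent.Y745.SW.nrm
  rw [Real.sqrt_div' _ (by norm_num : (0:ℝ) ≤ 2), div_div_eq_mul_div]
  ring

lemma mass_eq {a b : ℝ} (hab : a < b) : Pool.Agent.Y745.SW.Gm01 a b = normalMass a b := by
  unfold Pool.Agent.Y745.SW.Gm01 normalMass
  rw [MeasureTheory.measureReal_def, ProbabilityTheory.gaussianReal_apply_eq_integral _ one_ne_zero,
    ENNReal.toReal_ofReal (MeasureTheory.integral_nonneg fun x => ProbabilityTheory.gaussianPDFReal_nonneg _ _ _),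
    intervalIntegral.integral_of_le hab.le, MeasureTheory.integral_Ioc_eq_integral_Ioo]
  refine MeasureTheory.integral_congr_ae (Filter.Eventually.of_forall fun x => ?_)
  simp only [ProbabilityTheory.gaussianPDFReal, NNReal.coe_one, mul_one, sub_zero]
  rw [div_eq_inv_mul (Real.exp _)]

lemma PQ_le (a b δ T : ℝ) : Pool.Agent.Y745.SW.PQn (Pool.Agent.Y745.SW.Qs a b δ) 0 T ≤ (goodZeros a b δ T).ncard := by
  unfold Pool.Agent.Y745.SW.PQn
  refine Set.ncard_le_ncard_of_injOn (fun s => s.im) ?_ ?_ (goodZeros_finite a b δ T)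
  · rintro s ⟨⟨h1, h2, h3, h4, h5⟩, h6, h7, h8, h9, h10, h11⟩
    have hs : (1 / 2 + I * s.im : ℂ) = s := by
      apply Complex.ext
      · simp [h6]
      · simp
    have hz : riemannZeta (1 / 2 + I * (s.im : ℂ)) = 0 := by rw [hs]; exact h5
    have hd : deriv Z s.im ≠ 0 := simple_of_order hz (by rw [hs]; exact h7)
    have hn : ‖deriv Z s.im‖ = ‖deriv riemannZeta s‖ := by
      rw [(Z_hasDerivAt s.im hz).deriv, norm_mul, norm_mul, phase_norm, Complex.norm_I, one_mul,
        mul_one, hs]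
    rw [nrm_eq] at h10 h11
    refine ⟨h3, h4, (Z_zero_iff _).mpr hz, hd, ?_, ?_, ?_⟩
    · intro s' b1 b2 b3 b4
      rw [hs] at b4 ⊢
      exact h9 s' b1 b2 b3 b4
    · rw [hn]; exact h10
    · rw [hn]; exact h11
  · rintro s ⟨-, h6, -⟩ s' ⟨-, h6', -⟩ h
    exact Complex.ext (h6.trans h6'.symm) h

theorem result : ∀ a b : ℝ, a < b → ∀ ε : ℝ, 0 < ε → ∃ δ : ℝ, 0 < δ ∧ ∃ T₀ : ℝ, ∀ T : ℝ, T₀ ≤ T →
    ((3 / 2 - Real.cot (1 / Real.sqrt 2) / Real.sqrt 2) * normalMass a b - ε) * (N T : ℝ) ≤
      ((goodZeros a b δ T).ncard : ℝ) := by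
  intro a b hab ε hε
  obtain ⟨δ, hδ, X0, hX0⟩ := Pool.Agent.Y745.SW.final hab hε
  refine ⟨δ, hδ, X0, fun T hT => ?_⟩
  rw [N_eq, ← mass_eq hab]
  have h1 := hX0 T hT
  have h2 : (Pool.Agent.Y745.SW.PQn (Pool.Agent.Y745.SW.Qs a b δ) 0 T : ℝ) ≤ ((goodZeros a b δ T).ncard : ℝ) := by
    exact_mod_cast PQ_le a b δ T
  have h3 : (2 - H370.cMTinv) = 3 / 2 - Real.cot (1 / Real.sqrt 2) / Real.sqrt 2 := by
    unfold H370.cMTinv; ring
  rw [h3] at h1
  exact h1.trans h2

end Pool.Agent.Results.MP_6bc78b_nt.LawOfDerivative
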